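import Pool.Agent.Work.MP_5e4613_co.Lower
import Pool.Agent.Dabab.Main

/-!
# `χ_m = 3` for the family of all dual-ABAB-free hypergraphs
-/

namespace Pool.Agent.Results.MP_5e4613_co.ThreeColours

/-- The hypergraph on `X` with the hyperedges `F` is ABAB-free. -/
def ABABFree {X : Type} (F : Set (Set X)) : Prop :=
  ∃ _ : LinearOrder X, ∀ A ∈ F, ∀ B ∈ F, ¬ ∃ a₁ b₁ a₂ b₂ : X, a₁ < b₁ ∧ b₁ < a₂ ∧ a₂ < b₂ ∧
    a₁ ∈ A \ B ∧ b₁ ∈ B \ A ∧ a₂ ∈ A \ B ∧ b₂ ∈ B \ A

/-- The hyperedges of the dual of the hypergraph `(V, E)`; its vertex set is `E`. -/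
def dual {V : Type} (E : Finset (Finset V)) : Set (Set {e // e ∈ E}) :=
  Set.range fun v : V => {e | v ∈ e.1}

/-- A family of hypergraphs `(V, E)`. -/
abbrev Family := (V : Type) → Finset (Finset V) → Prop

/-- All finite hypergraphs of the family have a colouring with `c` colours such that the hyperedges
with at least `m` vertices are non-monochromatic. -/
def Colours (𝓕 : Family) (c m : ℕ) : Prop :=
  ∀ (V : Type) [Finite V] (E : Finset (Finset V)), 𝓕 V E →
    ∃ f : V → Fin c, ∀ e ∈ E, m ≤ e.card → ∃ x ∈ e, ∃ y ∈ e, f x ≠ f y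

/-- The parameter `χ_m` of the family. -/
noncomputable def chiM (𝓕 : Family) : ℕ∞ :=
  ⨅ (c : ℕ) (_ : 0 < c ∧ ∃ m, Colours 𝓕 c m), (c : ℕ∞)

/-- The family of all dual-ABAB-free hypergraphs. -/
def DualABABFree : Family := fun _ E => ABABFree (dual E)

theorem upper : Colours DualABABFree 3 6 := by
  intro V _ E hE
  obtain ⟨o, hfree⟩ := hE
  let _ := o
  obtain ⟨f, hf⟩ := Dabab.three_colours (fun e : {e // e ∈ E} => e.1) (by
    rintro v w ⟨a₁, b₁, a₂, b₂, p, q, r, h1, h2, h3, h4⟩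
    exact hfree _ ⟨v, rfl⟩ _ ⟨w, rfl⟩ ⟨a₁, b₁, a₂, b₂, p, q, r, h1, h2, h3, h4⟩)
  exact ⟨f, fun e he hme => hf ⟨e, he⟩ hme⟩

theorem lower (c : ℕ) (hc : c ≤ 2) (M : ℕ) : ¬ Colours DualABABFree c M := by
  classical
  intro hcol
  obtain ⟨V, ι, iV, fV, fι, oι, S, hS, hs, hf⟩ := DABAB.forced M M
  obtain rfl : iV = fun a b => Classical.propDecidable (a = b) := Subsingleton.elim _ _
  set E : Finset (Finset V) := Finset.univ.image S with hE
  have hsec : ∀ e : {e // e ∈ E}, ∃ i, S i = e.1 := by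
    intro e
    obtain ⟨i, -, hi⟩ := Finset.mem_image.mp e.2
    exact ⟨i, hi⟩
  choose g hg using hsec
  have hginj : Function.Injective g := by
    intro a b hab
    apply Subtype.ext
    rw [← hg a, ← hg b, hab]
  have hfam : DualABABFree V E := by
    refine ⟨LinearOrder.lift' g hginj, ?_⟩
    rintro A ⟨v, rfl⟩ B ⟨w, rfl⟩ ⟨a₁, b₁, a₂, b₂, p, q, r, h1, h2, h3, h4⟩
    have p' : g a₁ < g b₁ := p
    have q' : g b₁ < g a₂ := q
    have r' : g a₂ < g b₂ := r
    simp only [Set.mem_sdiff, Set.mem_ofPred_eq] at h1 h2 h3 h4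
    rw [← hg] at h1 h2 h3 h4
    have key := hS v w (g a₁) (g b₁) (g a₂) (g b₂) h1.1 h1.2 h3.1 h3.2 h2.1 h2.2 h4.1 h4.2
    have e1 : ¬ (g a₂ < g b₁) := not_lt_of_gt q'
    have e2 : g a₁ < g b₂ := p'.trans (q'.trans r')
    tauto
  obtain ⟨f, hf'⟩ := hcol V E hfam
  rcases hf (fun v => decide ((f v).1 = 0)) with ⟨i, hi, hic⟩ | ⟨i, hi, hic⟩
  · obtain ⟨x, hx, y, hy, hxy⟩ := hf' (S i) (Finset.mem_image_of_mem _ (Finset.mem_univ i)) hi
    apply hxy
    have h1 := hic x hx
    have h2 := hic y hy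
    simp only [decide_eq_true_eq] at h1 h2
    exact Fin.ext (h1.trans h2.symm)
  · obtain ⟨x, hx, y, hy, hxy⟩ := hf' (S i) (Finset.mem_image_of_mem _ (Finset.mem_univ i)) hi
    apply hxy
    have h1 := hic x hx
    have h2 := hic y hy
    simp only [decide_eq_false_iff_not] at h1 h2
    have h3 := (f x).2
    have h4 := (f y).2
    exact Fin.ext (by omega)

/-- `χ_m = 3` for the family of all dual-ABAB-free hypergraphs; moreover `3` colours suffice with
threshold `6`: every dual-ABAB-free hypergraph has a vertex colouring with `3` colours in which no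
hyperedge with at least `6` vertices is monochromatic. -/
theorem result : chiM DualABABFree = 3 ∧ Colours DualABABFree 3 6 := by
  refine ⟨le_antisymm (iInf₂_le 3 ⟨by norm_num, 6, upper⟩) (le_iInf₂ fun c hc => ?_), upper⟩
  obtain ⟨-, M, hM⟩ := hc
  by_contra hcon
  push Not at hcon
  have : c ≤ 2 := by
    have h1 : (c : ℕ∞) < 3 := hcon
    have h2 : c < 3 := by exact_mod_cast h1
    omega
  exact lower c this M hM

end Pool.Agent.Results.MP_5e4613_co.ThreeColours
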